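import Mathlib

/-! Sparse relations have large independent sets; one level of random labels. -/

namespace Pool.Agent.H.MP_cf6cc5_co
open Finset Classical

variable {X : Type}

lemma thin0 (R : X → X → Prop) (T : Finset X) (E : ℕ)
    (h : ((T ×ˢ T).filter fun p => R p.1 p.2).card ≤ E * T.card) :
    ∃ I ⊆ T, T.card ≤ (8 * E + 2) * I.card ∧ ∀ u ∈ I, ∀ v ∈ I, u ≠ v → ¬R u v := by
  let dg : X → ℕ := fun v => (T.filter fun u => R u v).card + (T.filter fun u => R v u).card
  have s : ∑ v ∈ T, dg v ≤ 2 * (E * T.card) := by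
    rw [card_filter, sum_product] at h
    simp only [dg, sum_add_distrib, card_filter]
    nth_rw 1 [sum_comm]
    simp only at h
    omega
  let U := T.filter fun v => dg v ≤ 4 * E
  have u : T.card ≤ 2 * U.card := by
    have a := card_filter_add_card_filter_not (s := T) fun v => dg v ≤ 4 * E
    have b := (card_nsmul_le_sum _ dg (4 * E + 1) fun v (hv : v ∈ T.filter fun v => ¬dg v ≤ 4 * E) =>
      not_le.mp (mem_filter.mp hv).2).trans ((sum_le_sum_of_subset (filter_subset _ _)).trans s)
    rw [smul_eq_mul] at b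
    by_contra! c
    change U.card + _ = _ at a
    nlinarith
  obtain ⟨I, hI, m⟩ := exists_max_image (U.powerset.filter fun I => ∀ u ∈ I, ∀ v ∈ I, u ≠ v → ¬R u v)
    card ⟨∅, by simp⟩
  simp only [mem_filter, mem_powerset] at hI m
  refine ⟨I, hI.1.trans (filter_subset _ _), ?_, hI.2⟩
  have : U ⊆ I.biUnion fun v => insert v (T.filter (fun u => R u v) ∪ T.filter fun u => R v u) :=
    fun x hx => by
      by_contra c
      simp only [mem_biUnion, mem_insert, mem_union, mem_filter, (mem_filter.mp hx).1, true_and,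
        not_exists, not_and, not_or] at c
      have := m (insert x I) ⟨insert_subset hx hI.1, by have := hI.2; grind⟩
      rw [card_insert_of_notMem fun e => (c x e).1 rfl] at this
      omega
  have := (card_le_card this).trans (card_biUnion_le_card_mul _ _ (4 * E + 1) fun v hv =>
    (card_insert_le _ _).trans (Nat.succ_le_succ ((card_union_le _ _).trans (mem_filter.mp (hI.1 hv)).2)))
  nlinarith

lemma thin (R : X → X → Prop) (T : Finset X) {E K m : ℕ} (hK : (8 * E + 2) * m < K)
    (h : ∀ U ⊆ T, U.card ≤ K → ((U ×ˢ U).filter fun p => R p.1 p.2).card ≤ E * U.card)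
    (k : ∀ I ⊆ T, (∀ u ∈ I, ∀ v ∈ I, u ≠ v → ¬R u v) → I.card ≤ m) : T.card ≤ (8 * E + 2) * m := by
  by_contra! c
  obtain ⟨U, a, b⟩ := exists_subset_card_eq (n := (8 * E + 2) * m + 1) c
  obtain ⟨I, d, e, f⟩ := thin0 R U E (h U a (by omega))
  have := Nat.mul_le_mul_left (8 * E + 2) (k I (d.trans a) f)
  omega

/-- Labellings taking values in `Y` on `H`. -/
def cy {A : Type} [Fintype A] [DecidableEq A] {P : ℕ} (H : Finset A) (Y : Finset (Fin P)) :
    Finset (A → Fin P) := Fintype.piFinset fun p => if p ∈ H then Y else univ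

lemma mem_cy {A : Type} [Fintype A] [DecidableEq A] {P : ℕ} {H : Finset A} {Y : Finset (Fin P)}
    {l : A → Fin P} (h : ∀ p ∈ H, l p ∈ Y) : l ∈ cy H Y :=
  Fintype.mem_piFinset.mpr fun p => by split_ifs <;> simp [*]

lemma cyl {A : Type} [Fintype A] [DecidableEq A] {P : ℕ} (P0 : 0 < P) (H : Finset A)
    (Y : Finset (Fin P)) :
    ((cy H Y).card : ℝ) = (Y.card / P) ^ H.card * (P : ℝ) ^ Fintype.card A := by
  rw [cy, Fintype.card_piFinset]
  push_cast
  rw [prod_congr rfl (g := fun p => (if p ∈ H then (Y.card / P : ℝ) else 1) * P) fun p _ => by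
    split_ifs
    · field_simp
    · simp, prod_mul_distrib]
  simp [div_pow]

lemma lev [Fintype X] {r K P L : ℕ} (hX : Fintype.card X ≤ 2 ^ r) (hP : 6 * K ^ 2 ≤ P) (P3 : 3 ≤ P)
    (L2 : 2 ≤ L) (H : Finset X → Finset (X × X)) : ∃ l : X × X → Fin P,
    (∀ T : Finset X, T.card ≤ K →
      ((T ×ˢ T).filter fun p => (l (p.1, p.2)).val < 3).card ≤ (r + 2) * T.card) ∧
    ∀ S : Finset X, S.card = L → P * (r + 2) * L ≤ (H S).card → ∀ c : Fin 3, ∃ p ∈ H S, (l p).val = c := by
  have P0 : (0 : ℝ) < P := by exact_mod_cast show 0 < P by omega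
  let Y : Finset (Fin P) := univ.filter fun a => a.val < 3
  have hY : (Y.card : ℝ) ≤ 3 := by
    exact_mod_cast (card_le_card_of_injOn Fin.val (fun a ha => mem_coe.mpr (mem_range.mpr
      (mem_filter.mp ha).2)) Fin.val_injective.injOn).trans_eq (card_range 3)
  let B1 := (univ.filter fun T : Finset X => T.card ≤ K).biUnion fun T =>
    (powersetCard ((r + 2) * T.card + 1) (T ×ˢ T)).biUnion fun A => cy A Y
  let B2 := ((powersetCard L univ).filter fun S => P * (r + 2) * L ≤ (H S).card).biUnion fun S =>
    univ.biUnion fun c : Fin 3 => cy (H S) (univ.erase (c.castLE P3))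
  set M := (P : ℝ) ^ Fintype.card (X × X) with hM
  have M0 : 0 < M := by positivity
  have hX' : (Fintype.card X : ℝ) ≤ 2 ^ r := by exact_mod_cast hX
  have b1 : (B1.card : ℝ) ≤ 2 / 3 * M := by
    calc _ ≤ ∑ T : Finset X with T.card ≤ K, ((1 / 2) ^ (r + 2)) ^ T.card * (1 / 2 * M) := by
          refine (Nat.cast_le.mpr card_biUnion_le).trans ?_
          push_cast
          refine sum_le_sum fun T hT => (Nat.cast_le.mpr card_biUnion_le).trans ?_
          push_cast
          rw [sum_congr rfl fun A hA => by rw [cyl (by omega), (mem_powersetCard.mp hA).2], sum_const,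
            card_powersetCard, card_product, nsmul_eq_mul, ← mul_assoc, ← mul_assoc, ← pow_mul, ← pow_succ]
          refine mul_le_mul_of_nonneg_right ((mul_le_mul_of_nonneg_right
            (Nat.cast_le.mpr (Nat.choose_le_pow _ _)) (by positivity)).trans ?_) M0.le
          push_cast
          rw [← mul_pow]
          refine pow_le_pow_left₀ (by positivity) ?_ _
          have a : (T.card : ℝ) ≤ K := by exact_mod_cast (mem_filter.mp hT).2
          have b : (6 * K ^ 2 : ℝ) ≤ P := by exact_mod_cast hP
          rw [← mul_div_assoc, div_le_iff₀ P0]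
          have := mul_le_mul (mul_self_le_mul_self (by positivity) a) hY (by positivity) (by positivity)
          nlinarith
      _ ≤ ∑ T ∈ (univ : Finset X).powerset, ((1 / 2) ^ (r + 2)) ^ T.card * (1 / 2 * M) :=
          sum_le_sum_of_subset_of_nonneg (by simp) fun _ _ _ => by positivity
      _ ≤ _ := by
          have := sum_pow_mul_eq_add_pow ((1 / 2 : ℝ) ^ (r + 2)) 1 (univ : Finset X)
          simp only [one_pow, mul_one] at this
          rw [← sum_mul, this, card_univ]
          have a := pow_le_pow_left₀ (by positivity) (Real.add_one_le_exp ((1 / 2) ^ (r + 2)))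
            (Fintype.card X)
          rw [← Real.exp_nat_mul] at a
          have b : (Fintype.card X : ℝ) * (1 / 2) ^ (r + 2) ≤ 1 / 4 :=
            (mul_le_mul_of_nonneg_right hX' (by positivity)).trans_eq (by
              rw [pow_add, ← mul_assoc, ← mul_pow]
              norm_num)
          have c := Real.exp_bound_div_one_sub_of_interval (x := 1 / 4) (by norm_num) (by norm_num)
          have := a.trans ((Real.exp_le_exp.mpr b).trans c)
          nlinarith
  have b2 : (B2.card : ℝ) ≤ 1 / 4 * M := by
    have h2 : (1 - 1 / P : ℝ) ^ P ≤ 1 / 2 := by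
      have a := pow_le_pow_left₀ (sub_nonneg.mpr ((div_le_one P0).mpr (by exact_mod_cast show 1 ≤ P by omega)))
        (Real.one_sub_le_exp_neg (1 / P)) P
      rw [← Real.exp_nat_mul, show (P : ℝ) * -(1 / P) = -1 by field_simp] at a
      linarith [Real.exp_neg_one_lt_d9]
    calc _ ≤ ∑ S ∈ (powersetCard L univ).filter fun S => P * (r + 2) * L ≤ (H S).card,
          3 * (((1 / 2) ^ (r + 2)) ^ L * M) := by
          refine (Nat.cast_le.mpr card_biUnion_le).trans ?_
          push_cast
          refine sum_le_sum fun S hS => (Nat.cast_le.mpr card_biUnion_le).trans ?_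
          push_cast
          refine (sum_le_sum fun c _ => show _ ≤ ((1 / 2) ^ (r + 2)) ^ L * M from ?_).trans_eq (by simp)
          rw [cyl (by omega), card_erase_of_mem (mem_univ _), card_univ, Fintype.card_fin,
            Nat.cast_sub (by omega), sub_div, div_self P0.ne', Nat.cast_one]
          have n : (0 : ℝ) ≤ 1 - 1 / P :=
            sub_nonneg.mpr ((div_le_one P0).mpr (by exact_mod_cast show 1 ≤ P by omega))
          refine mul_le_mul_of_nonneg_right ((pow_le_pow_of_le_one n (sub_le_self _ (by positivity))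
            (mem_filter.mp hS).2).trans ?_) M0.le
          rw [pow_mul, pow_mul]
          gcongr
      _ ≤ (2 ^ r) ^ L * (3 * (((1 / 2) ^ (r + 2)) ^ L * M)) := by
          rw [sum_const, nsmul_eq_mul]
          refine mul_le_mul_of_nonneg_right ?_ (by positivity)
          have := (card_filter_le (powersetCard L (univ : Finset X))
            fun S => P * (r + 2) * L ≤ (H S).card).trans ((card_powersetCard _ _).trans_le
            ((Nat.choose_le_pow _ _).trans (Nat.pow_le_pow_left hX _)))
          exact_mod_cast this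
      _ ≤ _ := by
          rw [mul_left_comm, ← mul_assoc _ _ M, ← mul_pow, pow_add, ← mul_assoc (2 ^ r), ← mul_pow]
          have := pow_le_pow_of_le_one (a := (1 / 4 : ℝ)) (by norm_num) (by norm_num) L2
          norm_num at this ⊢
          nlinarith
  obtain ⟨l, -, hl⟩ := exists_mem_notMem_of_card_lt_card (s := B1 ∪ B2) (t := univ) (by
    have : ((B1 ∪ B2).card : ℝ) ≤ B1.card + B2.card := by exact_mod_cast card_union_le _ _
    have e : ((univ : Finset (X × X → Fin P)).card : ℝ) = M := by simp [hM]
    exact_mod_cast show ((B1 ∪ B2).card : ℝ) < (univ : Finset (X × X → Fin P)).card by linarith)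
  simp only [B1, B2, mem_union, mem_biUnion, mem_filter, mem_univ, true_and, not_or, not_exists,
    not_and, mem_powersetCard, subset_univ, and_imp] at hl
  refine ⟨l, fun T hT => ?_, fun S h1 h2 c => ?_⟩
  · by_contra! c
    obtain ⟨A, a, b⟩ := exists_subset_card_eq (n := (r + 2) * T.card + 1) c
    exact hl.1 T hT A (a.trans (filter_subset _ _)) b (mem_cy fun p hp =>
      mem_filter.mpr ⟨mem_univ _, (mem_filter.mp (a hp)).2⟩)
  · by_contra! e
    exact hl.2 S h1 h2 c (mem_cy fun p hp => mem_erase.mpr ⟨fun f => e p hp (by simp [f]), mem_univ _⟩)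

end Pool.Agent.H.MP_cf6cc5_co
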