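import Pool.Agent.H.MP_cf6cc5_co.A

/-! Colours are removed from pairs of nodes of a tree, at most one in each block of levels. -/

namespace Pool.Agent.H.MP_cf6cc5_co
open Finset Classical

variable {X : Type} [LinearOrder X] {f : X → X} {t E K : ℕ} {D : ℕ → X → X → Finset (Fin 3)}
  {F k : ℕ → X → X → Prop}

/-- The rules of the removal process. -/
structure Pr (f : X → X) (t E K : ℕ) (D : ℕ → X → X → Finset (Fin 3)) (F k : ℕ → X → X → Prop) :
    Prop where
  d0 : ∀ u v, D 0 u v = ∅ ∧ ¬F 0 u v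
  dn : ∀ d u v, ¬k d u v → D (d + 1) u v = D d (f u) (f v)
  dk : ∀ d u v, k d u v → u < v ∧ (D d (f u) (f v)).card ≤ 1 ∧ (F d (f u) (f v) → t ∣ d) ∧
    (D (d + 1) u v).card ≤ (D d (f u) (f v)).card + 1 ∧ D d (f u) (f v) ⊆ D (d + 1) u v
  fs : ∀ d u v, F (d + 1) u v ↔ k d u v ∨ F d (f u) (f v) ∧ ¬t ∣ d
  sp : ∀ d (T : Finset X), T.card ≤ K → ((T ×ˢ T).filter fun p => k d p.1 p.2).card ≤ E * T.card

lemma seq [Fintype X] (f : X → X) (t : ℕ) {r P L : ℕ} (hX : Fintype.card X ≤ 2 ^ r) (hP : 6 * K ^ 2 ≤ P)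
    (P3 : 3 ≤ P) (L2 : 2 ≤ L) : ∃ D F k, Pr f t (r + 2) K D F k ∧ ∀ d (S : Finset X), S.card = L →
      P * (r + 2) * L ≤ ((S ×ˢ S).filter fun p => p.1 < p.2 ∧ (D d (f p.1) (f p.2)).card ≤ 1 ∧
        (F d (f p.1) (f p.2) → t ∣ d)).card → ∀ c, ∃ u ∈ S, ∃ v ∈ S, u < v ∧ c ∈ D (d + 1) u v := by
  let el : ℕ → (X → X → Finset (Fin 3) × Prop) → X → X → Prop := fun d s u v =>
    u < v ∧ (s (f u) (f v)).1.card ≤ 1 ∧ ((s (f u) (f v)).2 → t ∣ d)
  choose l h1 h2 using fun d s => lev hX hP P3 L2 fun S => (S ×ˢ S).filter fun p => el d s p.1 p.2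
  let s : ℕ → X → X → Finset (Fin 3) × Prop := Nat.rec (fun _ _ => (∅, False)) fun d s u v =>
    (if el d s u v ∧ (l d s (u, v)).val < 3 then
      (s (f u) (f v)).1 ∪ univ.filter fun c : Fin 3 => c.val = (l d s (u, v)).val else (s (f u) (f v)).1,
      (el d s u v ∧ (l d s (u, v)).val < 3) ∨ (s (f u) (f v)).2 ∧ ¬t ∣ d)
  refine ⟨fun d u v => (s d u v).1, fun d u v => (s d u v).2,
    fun d u v => el d (s d) u v ∧ (l d (s d) (u, v)).val < 3,
    ⟨fun u v => ⟨rfl, id⟩, fun d u v h => if_neg h, fun d u v h => ⟨h.1.1, h.1.2.1, h.1.2.2, ?_, ?_⟩,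
      fun d u v => Iff.rfl, fun d T hT => le_trans (card_le_card fun p hp => ?_) (h1 d (s d) T hT)⟩,
    fun d S a b c => ?_⟩
  · refine (congrArg card (if_pos h)).trans_le ((card_union_le _ _).trans (Nat.add_le_add_left
      (card_le_one.mpr fun x hx y hy => Fin.ext ?_) _))
    rw [(mem_filter.mp hx).2, (mem_filter.mp hy).2]
  · exact subset_union_left.trans (if_pos h).ge
  · simp only [mem_filter] at hp ⊢
    exact ⟨hp.1, hp.2.2⟩
  · obtain ⟨p, hp, e⟩ := h2 d (s d) S a b c
    obtain ⟨m, n⟩ := mem_filter.mp hp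
    exact ⟨_, (mem_product.mp m).1, _, (mem_product.mp m).2, n.1,
      mem_of_subset (if_pos (c := el d (s d) p.1 p.2 ∧ (l d (s d) (p.1, p.2)).val < 3) ⟨n, e ▸ c.2⟩).ge
        (mem_union_right _ (mem_filter.mpr ⟨mem_univ _, e.symm⟩))⟩

/-- All increasing pairs of `T` are related. -/
def Cl (R : X → X → Prop) (T : Finset X) : Prop := ∀ u ∈ T, ∀ v ∈ T, u < v → R u v

lemma Cl.img {R S : X → X → Prop} {T : Finset X} {g : X → X} (m : Monotone g) (h : Cl R T)
    (i : ∀ u v, u < v → R u v → S (g u) (g v)) (n : ∀ w, ¬S w w) :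
    Cl S (T.image g) ∧ Set.InjOn g T := by
  refine ⟨fun a ha b hb l => ?_, fun u hu v hv e => ?_⟩
  · obtain ⟨u, hu, rfl⟩ := mem_image.mp ha
    obtain ⟨v, hv, rfl⟩ := mem_image.mp hb
    exact i u v (m.reflect_lt l) (h u hu v hv (m.reflect_lt l))
  · by_contra c
    rcases lt_or_gt_of_ne c with l | l
    · exact n _ (e ▸ i u v l (h u hu v hv l))
    · exact n _ (e ▸ i v u l (h v hv u hu l))

namespace Pr
variable (h : Pr f t E K D F k)
include h

lemma diag (d : ℕ) : ∀ w, D d w w = ∅ ∧ ¬F d w w := by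
  induction d with
  | zero => exact fun w => h.d0 w w
  | succ d ih =>
    intro w
    have : ¬k d w w := fun c => lt_irrefl _ (h.dk _ _ _ c).1
    simp [h.dn _ _ _ this, h.fs, this, ih]

lemma two (d : ℕ) : ∀ u v, (D d u v).card ≤ 2 := by
  induction d with
  | zero => simp [h.d0]
  | succ d ih =>
    intro u v
    by_cases c : k d u v
    · have := h.dk _ _ _ c
      omega
    · rw [h.dn _ _ _ c]
      exact ih _ _

lemma mono (d e : ℕ) : ∀ u v, D d (f^[e] u) (f^[e] v) ⊆ D (d + e) u v := by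
  induction e with
  | zero => simp
  | succ e ih =>
    intro u v
    refine (ih (f u) (f v)).trans ?_
    by_cases c : k (d + e) u v
    · exact (h.dk _ _ _ c).2.2.2.2
    · exact (h.dn _ _ _ c).ge

lemma same (b j : ℕ) (hj : j ≤ t) : ∀ u v, (¬(F (t * b + j) u v ∧ j ≠ 0) →
    D (t * b + j) u v = D (t * b) (f^[j] u) (f^[j] v)) ∧
    (D (t * b + j) u v).card ≤ (D (t * b) (f^[j] u) (f^[j] v)).card + 1 := by
  induction j with
  | zero => simp
  | succ j ih =>
    intro u v
    obtain ⟨a1, a2⟩ := ih (by omega) (f u) (f v)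
    have dv : t ∣ t * b + j → j = 0 := fun c =>
      Nat.eq_zero_of_dvd_of_lt ((Nat.dvd_add_right (dvd_mul_right _ _)).mp c) (by omega)
    rw [← add_assoc, h.fs]
    by_cases c : k (t * b + j) u v
    · obtain ⟨-, -, b1, b2, -⟩ := h.dk _ _ _ c
      refine ⟨fun e => absurd ⟨.inl c, by omega⟩ e, b2.trans_eq ?_⟩
      rw [a1 fun e => e.2 (dv (b1 e.1))]
      rfl
    · rw [h.dn _ _ _ c]
      exact ⟨fun e => a1 fun e' => e ⟨.inr ⟨e'.1, fun x => e'.2 (dv x)⟩, by omega⟩, a2⟩

lemma cum (b j : ℕ) : ∀ T : Finset X, T.card ≤ K → Set.InjOn f^[j] T →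
    ((T ×ˢ T).filter fun p => F (t * b + j) p.1 p.2 ∧ j ≠ 0).card ≤ j * E * T.card := by
  induction j with
  | zero => simp
  | succ j ih =>
    intro T hT i
    have i1 : Set.InjOn f T := Set.InjOn.of_comp i
    have a := ih (T.image f) (card_image_le.trans hT) (by
      rw [coe_image]
      exact Set.InjOn.image_of_comp i)
    have b1 := h.sp (t * b + j) T hT
    have c : ((T ×ˢ T).filter fun p => F (t * b + j) (f p.1) (f p.2) ∧ j ≠ 0).card ≤ _ :=
      le_trans (card_le_card_of_injOn (Prod.map f f) (fun p hp => by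
        simp only [coe_filter, mem_product, Set.mem_setOf_eq] at hp ⊢
        exact ⟨⟨mem_image_of_mem _ hp.1.1, mem_image_of_mem _ hp.1.2⟩, hp.2⟩) fun p hp r hr e => by
        simp only [coe_filter, mem_product, Set.mem_setOf_eq] at hp hr
        exact Prod.ext (i1 hp.1.1 hr.1.1 (congrArg Prod.fst e)) (i1 hp.1.2 hr.1.2 (congrArg Prod.snd e))) a
    rw [card_image_of_injOn i1] at c
    refine (card_le_card fun p hp => ?_).trans ((card_union_le _ _).trans
      ((Nat.add_le_add b1 c).trans_eq (by ring)))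
    simp only [mem_filter, mem_union, ← add_assoc, h.fs] at hp ⊢
    rcases hp.2.1 with e | e
    · exact .inl ⟨hp.1, e⟩
    · exact .inr ⟨hp.1, e.1, fun x => e.2 (by simp [x])⟩

variable (m : Monotone f) (hK : (8 * (t * E) + 2) ^ t < K)
include m hK

lemma grp (b j : ℕ) (hj : j ≤ t) : ∀ T : Finset X, Cl (F (t * b + j)) T →
    (∀ u ∈ T, ∀ v ∈ T, f^[j] u = f^[j] v) → T.card ≤ (8 * (t * E) + 2) ^ j := by
  induction j with
  | zero => exact fun T _ e => card_le_one.mpr e
  | succ j ih =>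
    intro T c e
    rw [pow_succ']
    refine thin (k (t * b + j)) T (K := K) ?_ (fun U _ hU => (h.sp _ U hU).trans
      (Nat.mul_le_mul_right _ (Nat.le_mul_of_pos_left _ (by omega)))) fun I a n => ?_
    · rw [← pow_succ']
      exact (Nat.pow_le_pow_right (by omega) hj).trans_lt hK
    · obtain ⟨x, y⟩ := Cl.img (R := fun u v => F (t * b + j) (f u) (f v)) (S := F (t * b + j)) (T := I) m
        (fun u hu v hv l => (((h.fs _ _ _).mp (c u (a hu) v (a hv) l)).resolve_left
          (n u hu v hv l.ne)).1) (fun _ _ _ => id) fun w => (h.diag _ w).2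
      rw [← card_image_of_injOn y]
      refine ih (by omega) _ x fun u hu v hv => ?_
      obtain ⟨u, hu', rfl⟩ := mem_image.mp hu
      obtain ⟨v, hv', rfl⟩ := mem_image.mp hv
      exact e u (a hu') v (a hv')

lemma btw {b j : ℕ} (hb : b < t) (hj : j ≤ t)
    (w : ∀ T : Finset X, Cl (fun u v => (D (t * b) u v).card = 2) T → T.card ≤ (8 * (t * E) + 2) ^ b)
    (T : Finset X) (i : Set.InjOn f^[j] T)
    (c : Cl (fun u v => (D (t * b + j) u v).card = 2 ∨ F (t * b + j) u v ∧ j ≠ 0) T) :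
    T.card ≤ (8 * (t * E) + 2) ^ (b + 1) := by
  rw [pow_succ']
  refine thin (fun u v => F (t * b + j) u v ∧ j ≠ 0) T (K := K) ?_ (fun U a hU => ?_) fun I a n => ?_
  · rw [← pow_succ']
    exact (Nat.pow_le_pow_right (by omega) hb).trans_lt hK
  · have := (h.cum b j U hU (i.mono a)).trans (Nat.mul_le_mul_right _ (Nat.mul_le_mul_right E hj))
    rwa [filter_congr_decidable]
  · obtain ⟨x, y⟩ := Cl.img (R := fun u v => (D (t * b) (f^[j] u) (f^[j] v)).card = 2)
      (S := fun u v => (D (t * b) u v).card = 2) (T := I) (m.iterate j)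
      (fun u hu v hv l => by
        beta_reduce
        rw [← (h.same b j hj u v).1 (n u hu v hv l.ne)]
        exact (c u (a hu) v (a hv) l).resolve_right (n u hu v hv l.ne)) (fun _ _ _ => id)
      fun w => by simp [h.diag]
    rw [← card_image_of_injOn y]
    exact w _ x

lemma dbl (b : ℕ) (hb : b ≤ t) : ∀ T : Finset X, Cl (fun u v => (D (t * b) u v).card = 2) T →
    T.card ≤ (8 * (t * E) + 2) ^ b := by
  induction b with
  | zero =>
    refine fun T c => card_le_one.mpr fun u hu v hv => ?_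
    by_contra n
    rcases lt_or_gt_of_ne n with l | l
    · simpa [h.d0] using c u hu v hv l
    · simpa [h.d0] using c v hv u hu l
  | succ b ih =>
    intro T c
    refine h.btw m hK hb le_rfl (ih (by omega)) T (Cl.img (S := fun u v => D (t * b) u v ≠ ∅)
      (m.iterate t) c (fun u v _ e n => ?_) fun w => by simp [h.diag]).2 fun u hu v hv l =>
        .inl (c u hu v hv l)
    have := (h.same b t le_rfl u v).2
    rw [n, ← mul_add_one, e] at this
    simp at this

lemma nc {d : ℕ} (hd : d < t * t) (T : Finset X)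
    (c : Cl (fun u v => ¬((D d (f u) (f v)).card ≤ 1 ∧ (F d (f u) (f v) → t ∣ d))) T) :
    T.card ≤ (8 * (t * E) + 2) ^ (2 * t) := by
  have t0 : 0 < t := Nat.pos_of_mul_pos_left (Nat.zero_lt_of_lt hd)
  obtain ⟨b, j, hb, hj, rfl⟩ : ∃ b j, b < t ∧ j < t ∧ d = t * b + j :=
    ⟨d / t, d % t, Nat.div_lt_of_lt_mul hd, Nat.mod_lt _ t0, (Nat.div_add_mod _ _).symm⟩
  obtain ⟨x, y⟩ := Cl.img (S := fun u v => (D (t * b + j) u v).card = 2 ∨ F (t * b + j) u v ∧ j ≠ 0) m c
    (fun u v _ e => by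
      have := h.two (t * b + j) (f u) (f v)
      by_contra! n
      exact e ⟨by omega, fun a => by simp [n.2 a]⟩) fun w => by simp [h.diag]
  rw [← card_image_of_injOn y]
  generalize T.image f = U at x
  refine (card_le_mul_card_image (f := f^[j]) U ((8 * (t * E) + 2) ^ j) fun a _ => h.grp m hK b j hj.le _
    (fun u hu v hv l => ?_) fun u hu v hv => ?_).trans ?_
  · have := (h.same b j hj.le u v).2
    rw [(mem_filter.mp hu).2, (mem_filter.mp hv).2, (h.diag _ _).1, card_empty] at this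
    exact ((x u (mem_filter.mp hu).1 v (mem_filter.mp hv).1 l).resolve_left (by omega)).1
  · rw [(mem_filter.mp hu).2, (mem_filter.mp hv).2]
  · obtain ⟨W, a1, a2, a3⟩ := exists_subset_injOn_image_eq_of_surjOn (f := f^[j]) (U : Set X)
      (U.image f^[j]) (by rw [coe_image]; exact Set.surjOn_image _ _)
    have := h.btw m hK hb hj.le (h.dbl m hK b hb.le) W a2 fun u hu v hv => x u (a1 hu) v (a1 hv)
    rw [← a3, card_image_of_injOn a2]
    refine (Nat.mul_le_mul_left _ this).trans ?_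
    rw [← pow_add]
    exact Nat.pow_le_pow_right (by omega) (by omega)

end Pr

end Pool.Agent.H.MP_cf6cc5_co
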