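import Pool.Agent.H.MP_cf6cc5_co.B

/-! A three-colouring without a monochromatic complete interval minor. -/

namespace Pool.Agent.H.MP_cf6cc5_co
open Finset Classical

lemma core {X : Type} [LinearOrder X] [Fintype X] {f : X → X} (m : Monotone f) {t r b : ℕ}
    (hX : Fintype.card X ≤ 2 ^ r) (h1 : (8 * (t * (r + 2)) + 2) ^ (2 * t) ≤ b) (h2 : r + 2 ≤ b)
    (h3 : t * t ≤ b) (h4 : 200 ≤ b) (hf : ∀ w (T : Finset X), (∀ u ∈ T, f u = w) → T.card ≤ b)
    (top : ∀ u v, f^[t * t] u = f^[t * t] v) : ∃ col : X → X → Fin 3,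
    ∀ lo hi : Fin (b ^ 6) → X, (∀ i, lo i < hi i) → (∀ i j, i < j → hi i ≤ lo j) → ∀ c, ∃ i j, i < j ∧
      ∀ x y, lo i ≤ x → x ≤ hi i → lo j ≤ y → y ≤ hi j → col x y ≠ c := by
  obtain ⟨D, F, k, h, hit⟩ := seq (K := (8 * (t * (r + 2)) + 2) ^ t + 1) f t (P := 24 * b) (L := 200 * b ^ 3)
    hX (by
      rw [mul_comm 2, pow_mul] at h1
      have := Nat.one_le_pow t (8 * (t * (r + 2)) + 2) (by omega)
      nlinarith) (by omega) (by have := Nat.one_le_pow 3 b (by omega); omega)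
  have hit' : ∀ d < t * t, ∀ S : Finset X, 200 * b ^ 3 ≤ S.card → ∀ c, ∃ u ∈ S, ∃ v ∈ S, u < v ∧
      c ∈ D (d + 1) u v := fun d hd S hS c => by
    obtain ⟨S, a, e⟩ := exists_subset_card_eq hS
    obtain ⟨u, hu, v, hv, l⟩ := hit d S e (by
      by_contra! n
      obtain ⟨I, -, i2, i3⟩ := thin0 (fun u v => u < v ∧ (D d (f u) (f v)).card ≤ 1 ∧
        (F d (f u) (f v) → t ∣ d)) S (24 * b * (r + 2)) (by
          rw [e, filter_congr_decidable]
          exact n.le)
      have := (h.nc m (Nat.lt_succ_self _) hd I fun u hu v hv l x => i3 u hu v hv l.ne ⟨l, x⟩).trans h1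
      have := i2.trans (Nat.mul_le_mul (Nat.add_le_add_right (Nat.mul_le_mul_left 8
        (Nat.mul_le_mul_left (24 * b) h2)) 2) this)
      rw [e] at this
      nlinarith [Nat.mul_le_mul h4 h4]) c
    exact ⟨u, a hu, v, a hv, l⟩
  choose col _ hc using fun x y => exists_mem_notMem_of_card_lt_card (s := D (t * t) x y) (t := univ)
    ((h.two _ x y).trans_lt (by simp))
  refine ⟨col, fun lo hi a1 a2 c => ?_⟩
  by_contra! n
  let T : ℕ → Finset (Fin (b ^ 6)) := fun e => univ.filter fun i =>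
    f^[e] (lo i) ≠ f^[e] (hi i) ∧ f^[e + 1] (lo i) = f^[e + 1] (hi i)
  have cov : (univ : Finset (Fin (b ^ 6))) ⊆ (range (t * t)).biUnion T := fun i _ => by
    by_contra x
    simp only [T, mem_biUnion, mem_range, mem_filter, mem_univ, true_and, not_exists, not_and] at x
    have : ∀ e ≤ t * t, f^[e] (lo i) ≠ f^[e] (hi i) := fun e he => by
      induction e with
      | zero => exact (a1 i).ne
      | succ e ih => exact x e he (ih (by omega))
    exact this _ le_rfl (top _ _)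
  have bd : ∀ e ∈ range (t * t), (T e).card ≤ b * (200 * b ^ 3 - 1) := fun e he => by
    rw [mem_range] at he
    have i : Set.InjOn (fun i => f^[e] (lo i)) (T e) := by
      refine StrictMonoOn.injOn fun i hi j _ l => ?_
      exact (((m.iterate e) (a1 i).le).lt_of_ne (mem_filter.mp hi).2.1).trans_le ((m.iterate e) (a2 i j l))
    rw [← card_image_of_injOn i]
    refine (card_le_mul_card_image (f := f) _ b fun w _ => hf w _ fun u hu => (mem_filter.mp hu).2).trans
      (Nat.mul_le_mul_left _ (Nat.le_sub_one_of_lt ?_))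
    rw [image_image]
    by_contra! x
    simp only [Function.comp_def, ← Function.iterate_succ_apply' f] at x
    by_cases z : e + 1 = t * t
    · have := x.trans (card_le_one.mpr fun u hu v hv => by
        obtain ⟨i, -, rfl⟩ := mem_image.mp hu
        obtain ⟨j, -, rfl⟩ := mem_image.mp hv
        exact (show e.succ = t * t from z) ▸ top _ _)
      have := Nat.one_le_pow 3 b (by omega)
      omega
    obtain ⟨u, hu, v, hv, l, d⟩ := hit' (t * t - (e + 2)) (by omega) _ x c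
    obtain ⟨i, hi', rfl⟩ := mem_image.mp hu
    obtain ⟨j, hj', rfl⟩ := mem_image.mp hv
    have ij : i < j := by
      by_contra! y
      refine l.not_ge ((m.iterate _) ?_)
      rcases y.eq_or_lt with rfl | y
      · rfl
      · exact (a1 j).le.trans (a2 j i y)
    obtain ⟨x, y, b1, b2, b3, b4, b5⟩ := n i j ij
    have s : ∀ i ∈ T e, ∀ x, lo i ≤ x → x ≤ hi i → f^[e.succ] (lo i) = f^[e + 1] x := fun i g x p q =>
      le_antisymm ((m.iterate _) p) (((m.iterate _) q).trans_eq (mem_filter.mp g).2.2.symm)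
    rw [s i hi' x b1 b2, s j hj' y b3 b4] at d
    have := h.mono _ _ x y d
    rw [show t * t - (e + 2) + 1 + (e + 1) = t * t by omega, ← b5] at this
    exact hc x y this
  have := (card_le_card cov).trans (card_biUnion_le_card_mul _ _ _ bd)
  rw [card_univ, Fintype.card_fin, card_range] at this
  obtain ⟨L, hL⟩ : ∃ L, 200 * b ^ 3 = L + 1 :=
    ⟨200 * b ^ 3 - 1, by have := Nat.one_le_pow 3 b (by omega); omega⟩
  rw [hL, Nat.add_sub_cancel] at this
  have := this.trans (Nat.mul_le_mul_right _ h3)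
  have a := Nat.mul_le_mul_right (b ^ 5) h4
  have : b * b * (L + 1) = 200 * b ^ 5 := by rw [← hL]; ring
  nlinarith

lemma ex {t s : ℕ} (h1 : (8 * (t * (s * (t * t) + 2)) + 2) ^ (2 * t) ≤ 2 ^ s)
    (h2 : s * (t * t) + 2 ≤ 2 ^ s) (h3 : t * t ≤ 2 ^ s) (h4 : 200 ≤ 2 ^ s) :
    ∃ col : Fin (2 ^ (s * (t * t))) → Fin (2 ^ (s * (t * t))) → Fin 3,
    ∀ lo hi : Fin ((2 ^ s) ^ 6) → Fin (2 ^ (s * (t * t))), (∀ i, lo i < hi i) →
      (∀ i j, i < j → hi i ≤ lo j) → ∀ c, ∃ i j, i < j ∧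
      ∀ x y, lo i ≤ x → x ≤ hi i → lo j ≤ y → y ≤ hi j → col x y ≠ c := by
  let f : Fin (2 ^ (s * (t * t))) → Fin (2 ^ (s * (t * t))) := fun u =>
    ⟨u / 2 ^ s, (Nat.div_le_self _ _).trans_lt u.2⟩
  have it : ∀ e u, (f^[e] u).val = u / (2 ^ s) ^ e := fun e => by
    induction e with
    | zero => simp
    | succ e ih => exact fun u => by rw [Function.iterate_succ_apply, ih, Nat.div_div_eq_div_mul, pow_succ']
  refine core (f := f) (fun u v l => Nat.div_le_div_right l) (by simp) h1 h2 h3 h4 (fun w T h => ?_)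
    fun u v => Fin.ext ?_
  · refine (card_le_card_of_injOn (t := range (2 ^ s)) (fun u => u.val % 2 ^ s)
      (fun u _ => mem_coe.mpr (mem_range.mpr (Nat.mod_lt _ (by positivity)))) fun u hu v hv e =>
        Fin.ext ?_).trans_eq (card_range _)
    have a : u.val / 2 ^ s = v.val / 2 ^ s := congrArg Fin.val ((h u hu).trans (h v hv).symm)
    rw [← Nat.div_add_mod u (2 ^ s), ← Nat.div_add_mod v (2 ^ s), a, show u.val % 2 ^ s = _ from e]
  · rw [it, it, ← pow_mul, Nat.div_eq_of_lt u.2, Nat.div_eq_of_lt v.2]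

/-- A perfect matching with an edge between any two of its `l` blocks. -/
lemma mat (l : ℕ) : ∃ M : SimpleGraph (Fin (l * (l * 2))), (∀ v, ∃! w, M.Adj v w) ∧
    ∃ g : Fin l → Fin l → Fin 2 → Fin (l * (l * 2)), (∀ i j, M.Adj (g i j 0) (g j i 1)) ∧
      (∀ i j a b c d, i < j → g i a b < g j c d) ∧ (∀ i a c, g i a 0 ≠ g i c 1) ∧ ∀ i a b c d, toLex (a, b) ≤ toLex (c, d) →
        g i a b ≤ g i c d := by
  let e : Fin (l * (l * 2)) ≃o Fin l ×ₗ Fin l ×ₗ Fin 2 := Fintype.orderIsoFinOfCardEq _ (by simp)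
  let s : Fin l ×ₗ Fin l ×ₗ Fin 2 → Fin l ×ₗ Fin l ×ₗ Fin 2 := fun p =>
    toLex ((ofLex (ofLex p).2).1, toLex ((ofLex p).1, (ofLex (ofLex p).2).2 + 1))
  have z : ∀ a : Fin 2, a + 1 + 1 = a ∧ a + 1 ≠ a := by decide
  have s2 : ∀ p, s (s p) = p := fun p => by simp [s, z]
  refine ⟨⟨fun v w => e w = s (e v), ⟨fun v w h => by rw [h, s2]⟩, ⟨fun v h => (z _).2
      (congrArg (fun p => (ofLex (ofLex p).2).2) h).symm⟩⟩,
    fun v => ⟨e.symm (s (e v)), by simp, fun w h => e.injective (by simpa using h)⟩,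
    fun i j a => e.symm (toLex (i, toLex (j, a))), fun i j => by simp [s],
    fun i j a b c d h => e.symm.strictMono (Prod.Lex.left _ _ h),
    fun i a c h => zero_ne_one (congrArg (fun p => (ofLex (ofLex p).2).2) (e.symm.injective h)),
    fun i a b c d h => e.symm.monotone (Prod.Lex.toLex_le_toLex.mpr (.inr ⟨rfl, h⟩))⟩

end Pool.Agent.H.MP_cf6cc5_co
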